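import Mathlib

/-!
# Pairing close vectors

A finite family is divided into pairs of related members and a rest without related members;
the pairs get opposite signs.
-/

set_option autoImplicit false

namespace Pool.Agent.Q299.KE

open Finset

/-- `u` has no two different related members -/
def Apart {α : Type*} (R : α → α → Prop) (u : Finset α) : Prop :=
  ∀ i ∈ u, ∀ j ∈ u, i ≠ j → ¬ R i j

/-- **pairing** -/
theorem matching {α E : Type*} [DecidableEq α] [AddCommGroup E] [Module ℝ E] (v : α → E)
    (R : α → α → Prop) (s : Finset α) :
    ∃ u ⊆ s, Apart R u ∧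
      ∃ (m : ℕ) (a b : Fin m → α), m ≤ s.card ∧ (∀ p, a p ∈ s ∧ b p ∈ s ∧ R (a p) (b p)) ∧
      Function.Injective a ∧
      ∀ σ : Fin m → ℝ, (∀ p, σ p = 1 ∨ σ p = -1) → ∀ y : α → ℝ, (∀ j ∈ u, y j = 1 ∨ y j = -1) →
        ∃ x : α → ℝ, (∀ j ∈ s, x j = 1 ∨ x j = -1) ∧
          ∑ j ∈ s, x j • v j = ∑ p, σ p • (v (a p) - v (b p)) + ∑ j ∈ u, y j • v j := by
  classical
  induction s using Finset.strongInduction with
  | H s ih =>
    by_cases h : Apart R s
    · refine ⟨s, Subset.refl _, h, 0, Fin.elim0, Fin.elim0, Nat.zero_le _, fun p => p.elim0,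
        fun p => p.elim0, ?_⟩
      intro σ _ y hy
      exact ⟨y, hy, by simp⟩
    · unfold Apart at h
      push Not at h
      obtain ⟨i, hi, j, hj, hij, hR⟩ := h
      have hj' : j ∈ s.erase i := mem_erase.2 ⟨hij.symm, hj⟩
      have hsub : (s.erase i).erase j ⊆ s := (erase_subset _ _).trans (erase_subset _ _)
      have hss : (s.erase i).erase j ⊂ s :=
        (erase_subset _ _).trans_ssubset (erase_ssubset hi)
      obtain ⟨u, hu, hsep, m, a, b, hm, hab, hinj, hx⟩ := ih _ hss
      refine ⟨u, hu.trans hsub, hsep, m + 1, Fin.cons i a, Fin.cons j b, ?_, ?_, ?_, ?_⟩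
      · have h1 : ((s.erase i).erase j).card = s.card - 1 - 1 := by
          rw [card_erase_of_mem hj', card_erase_of_mem hi]
        have h2 : 0 < s.card := card_pos.2 ⟨i, hi⟩
        have h3 : 0 < (s.erase i).card := card_pos.2 ⟨j, hj'⟩
        rw [card_erase_of_mem hi] at h3
        omega
      · intro p
        refine Fin.cases ?_ (fun q => ?_) p
        · simp only [Fin.cons_zero]
          exact ⟨hi, hj, hR⟩
        · simp only [Fin.cons_succ]
          exact ⟨hsub (hab q).1, hsub (hab q).2.1, (hab q).2.2⟩
      · rw [Fin.cons_injective_iff]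
        refine ⟨?_, hinj⟩
        rintro ⟨q, hq⟩
        have := (hab q).1
        rw [hq, mem_erase, mem_erase] at this
        exact this.2.1 rfl
      · intro σ hσ y hy
        obtain ⟨x, hx1, hx2⟩ := hx (fun p => σ p.succ) (fun p => hσ _) y hy
        refine ⟨Function.update (Function.update x i (σ 0)) j (-σ 0), ?_, ?_⟩
        · intro k hk
          by_cases hkj : k = j
          · subst hkj
            rw [Function.update_self]
            rcases hσ 0 with h | h <;> rw [h] <;> simp
          · rw [Function.update_of_ne hkj]
            by_cases hki : k = i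
            · subst hki
              rw [Function.update_self]
              exact hσ 0
            · rw [Function.update_of_ne hki]
              exact hx1 k (mem_erase.2 ⟨hkj, mem_erase.2 ⟨hki, hk⟩⟩)
        · rw [← add_sum_erase s _ hi, ← add_sum_erase (s.erase i) _ hj', Fin.sum_univ_succ]
          have h1 : ∑ k ∈ (s.erase i).erase j,
              Function.update (Function.update x i (σ 0)) j (-σ 0) k • v k =
              ∑ k ∈ (s.erase i).erase j, x k • v k := by
            refine sum_congr rfl fun k hk => ?_
            rw [mem_erase, mem_erase] at hk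
            rw [Function.update_of_ne hk.1, Function.update_of_ne hk.2.1]
          rw [h1, hx2, Function.update_self, Function.update_of_ne hij, Function.update_self]
          simp only [Fin.cons_zero, Fin.cons_succ]
          rw [smul_sub, neg_smul]
          abel

end Pool.Agent.Q299.KE
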