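import Pool.Agent.Q299.KE.Match

/-!
# Chaining for signed sums of vectors
-/

set_option autoImplicit false

namespace Pool.Agent.Q299.KE

open Finset MeasureTheory

/-- pairwise more than `η` apart in the Euclidean distance, and more than one apart in the sum of
the absolute values of the coordinates -/
def Separated {n d : ℕ} (v : Fin n → EuclideanSpace ℝ (Fin d)) (η : ℝ) (u : Finset (Fin n)) :
    Prop :=
  ∀ i ∈ u, ∀ j ∈ u, i ≠ j → η < ‖v i - v j‖ ∧ 1 < ∑ c, |v i c - v j c|

open scoped Classical in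
/-- the largest number of indices of separated vectors -/
noncomputable def packing {n d : ℕ} (v : Fin n → EuclideanSpace ℝ (Fin d)) (η : ℝ) : ℕ :=
  (univ.filter fun u : Finset (Fin n) => Separated v η u).sup card

theorem card_le_packing {n d : ℕ} {v : Fin n → EuclideanSpace ℝ (Fin d)} {η : ℝ}
    {u : Finset (Fin n)} (h : Separated v η u) : u.card ≤ packing v η := by
  classical
  unfold packing
  exact le_sup (f := card) (mem_filter.2 ⟨mem_univ _, h⟩)

theorem packing_anti {n d : ℕ} (v : Fin n → EuclideanSpace ℝ (Fin d)) :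
    Antitone (packing v) := by
  classical
  intro η η' h
  unfold packing
  apply Finset.sup_le
  intro u hu
  rw [mem_filter] at hu
  apply le_sup (f := card)
  rw [mem_filter]
  refine ⟨mem_univ _, fun i hi j hj hij => ?_⟩
  have := hu.2 i hi j hj hij
  exact ⟨h.trans_lt this.1, this.2⟩

/-- the engine for vectors of bounded Euclidean norm -/
def KomEng (K : ℝ) : Prop :=
  ∀ {m d : ℕ} (w : Fin m → EuclideanSpace ℝ (Fin d)) (η : ℝ), 0 < η → (∀ p, ‖w p‖ ≤ η) →
    ∀ N : ℕ, m ≤ N → ∃ σ : Fin m → ℝ, (∀ p, σ p = 1 ∨ σ p = -1) ∧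
      ∀ i, |(∑ p, σ p • w p) i| ≤ K * η * (1 + Real.log N) ^ (1 / 4 : ℝ)

/-- the engine for bounded sums of absolute values -/
def L1Eng : Prop :=
  ∀ {m d : ℕ} (w : Fin m → EuclideanSpace ℝ (Fin d)), (∀ p, ∑ c, |w p c| ≤ 1) →
    ∃ σ : Fin m → ℝ, (∀ p, σ p = 1 ∨ σ p = -1) ∧ ∀ i, |(∑ p, σ p • w p) i| ≤ 1

/-- the indices in `s` can be signed with all coordinates at most `B` -/
def Good {n d : ℕ} (v : Fin n → EuclideanSpace ℝ (Fin d)) (s : Finset (Fin n)) (B : ℝ) : Prop :=
  ∃ x : Fin n → ℝ, (∀ j ∈ s, x j = 1 ∨ x j = -1) ∧ ∀ i, |(∑ j ∈ s, x j • v j) i| ≤ B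

variable {n d : ℕ} {v : Fin n → EuclideanSpace ℝ (Fin d)}

/-- one scale -/
theorem step {K : ℝ} (hK : KomEng K) (s : Finset (Fin n)) (η η' B : ℝ) (hη : 0 < η)
    (hs : Separated v η' s) (h : ∀ u ⊆ s, Separated v η u → Good v u B) :
    Good v s (B + K * η * (1 + Real.log (packing v η')) ^ (1 / 4 : ℝ)) := by
  classical
  obtain ⟨u, hu, hsep, m, a, b, hm, hab, -, hx⟩ :=
    matching v (fun i j => ‖v i - v j‖ ≤ η) s
  have hsu : Separated v η u := by
    intro i hi j hj hij
    exact ⟨not_le.1 (hsep i hi j hj hij), (hs i (hu hi) j (hu hj) hij).2⟩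
  obtain ⟨y, hy1, hy2⟩ := h u hu hsu
  obtain ⟨σ, hσ1, hσ2⟩ := hK (fun p => v (a p) - v (b p)) η hη (fun p => (hab p).2.2)
    (packing v η') (hm.trans (card_le_packing hs))
  obtain ⟨x, hx1, hx2⟩ := hx σ hσ1 y hy1
  refine ⟨x, hx1, fun i => ?_⟩
  rw [hx2, PiLp.add_apply]
  refine (abs_add_le _ _).trans ?_
  have := hσ2 i
  have := hy2 i
  linarith

/-- a family of separated unit vectors with at most one member -/
theorem good_single (hv : ∀ j, ‖v j‖ ≤ 1) (u : Finset (Fin n)) (hu : Separated v 2 u) :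
    Good v u 1 := by
  classical
  have hc : u.card ≤ 1 := by
    rw [card_le_one]
    intro i hi j hj
    by_contra hij
    have h1 := (hu i hi j hj hij).1
    have h2 := norm_sub_le (v i) (v j)
    have := hv i
    have := hv j
    linarith
  refine ⟨fun _ => 1, fun _ _ => Or.inl rfl, fun i => ?_⟩
  rcases u.eq_empty_or_nonempty with h | ⟨j, hj⟩
  · rw [h]
    simp
  · have h : u = {j} := by
      apply eq_singleton_iff_unique_mem.2 ⟨hj, fun k hk => ?_⟩
      exact card_le_one.1 hc k hk j hj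
    rw [h]
    simp only [sum_singleton, one_smul]
    have h1 : ‖v j i‖ ≤ ‖v j‖ := PiLp.norm_apply_le (v j) i
    rw [Real.norm_eq_abs] at h1
    exact h1.trans (hv j)

/-- the function in the bound -/
noncomputable def hh (v : Fin n → EuclideanSpace ℝ (Fin d)) (η : ℝ) : ℝ :=
  (1 + Real.log (packing v η)) ^ (1 / 4 : ℝ)

/-- all scales -/
theorem chain {K : ℝ} (hK : KomEng K) (hv : ∀ j, ‖v j‖ ≤ 1) (k : ℕ) :
    ∀ s : Finset (Fin n), Separated v ((1 / 2) ^ k) s →
      Good v s (1 + 2 * K * ∑ l ∈ range (k + 1), (1 / 2) ^ l * hh v ((1 / 2) ^ l)) := by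
  induction k with
  | zero =>
    intro s hs
    have h1 := step hK s 2 ((1 / 2) ^ 0) 1 (by norm_num) hs
      (fun u _ hu => good_single hv u hu)
    convert h1 using 1
    simp only [zero_add, range_one, sum_singleton, pow_zero, one_mul]
    unfold hh
    ring
  | succ k ih =>
    intro s hs
    have h1 := step hK s ((1 / 2) ^ k) ((1 / 2) ^ (k + 1)) _ (by positivity) hs
      (fun u _ hu => ih u hu)
    convert h1 using 1
    rw [sum_range_succ _ (k + 1)]
    unfold hh
    rw [pow_succ (1 / 2 : ℝ) k]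
    ring

/-- first the sums of absolute values, then all scales -/
theorem total {K : ℝ} (hK : KomEng K) (hL : L1Eng) (hv : ∀ j, ‖v j‖ ≤ 1) :
    ∃ k : ℕ, Good v univ
      (2 + 2 * K * ∑ l ∈ range (k + 1), (1 / 2) ^ l * hh v ((1 / 2) ^ l)) := by
  classical
  obtain ⟨u, hu, hsep, m, a, b, hm, hab, -, hx⟩ :=
    matching v (fun i j => ∑ c, |v i c - v j c| ≤ 1) univ
  -- a scale below all distances
  have hk : ∃ k : ℕ, Separated v ((1 / 2) ^ k) u := by
    have h1 : ∀ i ∈ u, ∀ j ∈ u, i ≠ j → 0 < ‖v i - v j‖ := by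
      intro i hi j hj hij
      rw [norm_pos_iff]
      intro h0
      apply hsep i hi j hj hij
      have : ∀ c, |v i c - v j c| = 0 := by
        intro c
        have h2 : (v i - v j) c = 0 := by rw [h0]; rfl
        rw [PiLp.sub_apply] at h2
        rw [h2, abs_zero]
      simp [this]
    have h2 : ∀ᶠ k : ℕ in Filter.atTop, ∀ i ∈ u, ∀ j ∈ u, i ≠ j → ((1 / 2 : ℝ)) ^ k < ‖v i - v j‖ := by
      rw [Filter.eventually_all_finset]
      intro i hi
      rw [Filter.eventually_all_finset]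
      intro j hj
      by_cases hij : i = j
      · exact Filter.Eventually.of_forall fun k h => absurd hij h
      · have := (tendsto_pow_atTop_nhds_zero_of_lt_one (r := (1 / 2 : ℝ)) (by norm_num)
          (by norm_num)).eventually (gt_mem_nhds (h1 i hi j hj hij))
        exact this.mono fun k hk _ => hk
    obtain ⟨k, hk⟩ := h2.exists
    exact ⟨k, fun i hi j hj hij => ⟨hk i hi j hj hij, not_le.1 (hsep i hi j hj hij)⟩⟩
  obtain ⟨k, hk⟩ := hk
  obtain ⟨y, hy1, hy2⟩ := chain hK hv k u hk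
  obtain ⟨σ, hσ1, hσ2⟩ := hL (fun p => v (a p) - v (b p)) (fun p => by
    simpa [PiLp.sub_apply] using (hab p).2.2)
  obtain ⟨x, hx1, hx2⟩ := hx σ hσ1 y hy1
  refine ⟨k, x, hx1, fun i => ?_⟩
  rw [hx2, PiLp.add_apply]
  refine (abs_add_le _ _).trans ?_
  have := hσ2 i
  have := hy2 i
  linarith

end Pool.Agent.Q299.KE
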