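import Pool.Agent.Q299.KE.Chain

/-!
# The entropy integral
-/

set_option autoImplicit false

namespace Pool.Agent.Q299.KE

open Finset MeasureTheory intervalIntegral

variable {n d : ℕ} (v : Fin n → EuclideanSpace ℝ (Fin d))

theorem one_le_hh (η : ℝ) : 1 ≤ hh v η := by
  unfold hh
  apply Real.one_le_rpow _ (by norm_num)
  have := Real.log_natCast_nonneg (packing v η)
  linarith

theorem hh_anti : Antitone (hh v) := by
  intro η η' h
  unfold hh
  have h1 := Real.log_natCast_nonneg (packing v η)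
  have h2 := Real.log_natCast_nonneg (packing v η')
  apply Real.rpow_le_rpow (by linarith) _ (by norm_num)
  rcases Nat.eq_zero_or_pos (packing v η') with h3 | h3
  · rw [h3]
    simp only [CharP.cast_eq_zero, Real.log_zero, add_zero]
    linarith
  · have h4 : (packing v η' : ℝ) ≤ packing v η := by exact_mod_cast packing_anti v h
    have := Real.log_le_log (by exact_mod_cast h3) h4
    linarith

theorem hh_int (a b : ℝ) : IntervalIntegrable (hh v) volume a b :=
  (hh_anti v).intervalIntegrable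

theorem sum_le_int (k : ℕ) : ∑ l ∈ range (k + 1), (1 / 2 : ℝ) ^ l * hh v ((1 / 2) ^ l) ≤
    2 * ∫ η in ((1 / 2 : ℝ) ^ (k + 1))..1, hh v η := by
  have hone : ∀ l : ℕ, (1 / 2 : ℝ) ^ l * hh v ((1 / 2) ^ l) ≤
      2 * ∫ η in ((1 / 2 : ℝ) ^ (l + 1))..((1 / 2 : ℝ) ^ l), hh v η := by
    intro l
    have hle : (1 / 2 : ℝ) ^ (l + 1) ≤ (1 / 2) ^ l :=
      pow_le_pow_of_le_one (by norm_num) (by norm_num) (Nat.le_succ l)
    have h1 : ∫ _ in ((1 / 2 : ℝ) ^ (l + 1))..((1 / 2 : ℝ) ^ l), hh v ((1 / 2) ^ l) ≤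
        ∫ η in ((1 / 2 : ℝ) ^ (l + 1))..((1 / 2 : ℝ) ^ l), hh v η := by
      apply intervalIntegral.integral_mono_on hle
      · exact intervalIntegrable_const
      · exact hh_int v _ _
      · intro η hη
        exact hh_anti v hη.2
    rw [intervalIntegral.integral_const, smul_eq_mul] at h1
    have h2 : ((1 / 2 : ℝ) ^ l - (1 / 2) ^ (l + 1)) = (1 / 2) ^ l / 2 := by
      rw [pow_succ]
      ring
    rw [h2] at h1
    linarith
  induction k with
  | zero =>
    have := hone 0
    simpa using this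
  | succ k ih =>
    rw [sum_range_succ]
    have h1 := hone (k + 1)
    have h2 : ∫ η in ((1 / 2 : ℝ) ^ (k + 1 + 1))..1, hh v η =
        (∫ η in ((1 / 2 : ℝ) ^ (k + 1 + 1))..((1 / 2 : ℝ) ^ (k + 1)), hh v η) +
        ∫ η in ((1 / 2 : ℝ) ^ (k + 1))..1, hh v η :=
      (integral_add_adjacent_intervals (hh_int v _ _) (hh_int v _ _)).symm
    rw [h2]
    linarith

theorem int_le (a : ℝ) (ha : 0 ≤ a) :
    ∫ η in a..1, hh v η ≤ ∫ η in (0 : ℝ)..1, hh v η := by
  rw [← integral_add_adjacent_intervals (hh_int v 0 a) (hh_int v a 1)]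
  have : 0 ≤ ∫ η in (0 : ℝ)..a, hh v η := by
    apply intervalIntegral.integral_nonneg ha
    intro η _
    linarith [one_le_hh v η]
  linarith

theorem one_le_int : 1 ≤ ∫ η in (0 : ℝ)..1, hh v η := by
  have h1 : ∫ _ in (0 : ℝ)..1, (1 : ℝ) ≤ ∫ η in (0 : ℝ)..1, hh v η := by
    apply intervalIntegral.integral_mono_on zero_le_one intervalIntegrable_const (hh_int v _ _)
    intro η _
    exact one_le_hh v η
  simpa using h1

variable {v}

/-- **the entropy integral bounds the value of a signing** -/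
theorem entropy_bound {K : ℝ} (hK0 : 0 ≤ K) (hK : KomEng K) (hL : L1Eng) (hv : ∀ j, ‖v j‖ ≤ 1) :
    ∃ x : Fin n → ℝ, (∀ j, x j = 1 ∨ x j = -1) ∧
      ∀ i, |(∑ j, x j • v j) i| ≤ (2 + 4 * K) * ∫ η in (0 : ℝ)..1, hh v η := by
  obtain ⟨k, x, hx1, hx2⟩ := total hK hL hv
  refine ⟨x, fun j => hx1 j (mem_univ j), fun i => (hx2 i).trans ?_⟩
  have h1 := sum_le_int v k
  have h2 := int_le v ((1 / 2 : ℝ) ^ (k + 1)) (by positivity)
  have h3 := one_le_int v
  have h4 : 2 * K * ∑ l ∈ range (k + 1), (1 / 2 : ℝ) ^ l * hh v ((1 / 2) ^ l) ≤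
      2 * K * (2 * ∫ η in (0 : ℝ)..1, hh v η) := by
    apply mul_le_mul_of_nonneg_left _ (by positivity)
    linarith
  linarith

/-- families of polynomial metric entropy -/
theorem int_power {q A : ℝ} (hq0 : 0 ≤ q) (hq : q < 4) (hA : 0 ≤ A)
    (h : ∀ η : ℝ, 0 < η → η ≤ 1 → (packing v η : ℝ) ≤ Real.exp (A * η ^ (-q))) :
    ∫ η in (0 : ℝ)..1, hh v η ≤ 4 / (4 - q) * (1 + A) ^ (1 / 4 : ℝ) := by
  have h1 : ∫ η in (0 : ℝ)..1, hh v η ≤
      ∫ η in (0 : ℝ)..1, (1 + A) ^ (1 / 4 : ℝ) * η ^ (-q / 4) := by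
    apply intervalIntegral.integral_mono_on_of_le_Ioo zero_le_one (hh_int v _ _)
    · apply IntervalIntegrable.const_mul
      apply intervalIntegral.intervalIntegrable_rpow'
      linarith
    · intro η hη
      have hη0 : 0 < η := hη.1
      have h2 := h η hη0 hη.2.le
      have h3 : Real.log (packing v η) ≤ A * η ^ (-q) := by
        rcases Nat.eq_zero_or_pos (packing v η) with h4 | h4
        · rw [h4]
          simp only [CharP.cast_eq_zero, Real.log_zero]
          positivity
        · have := Real.log_le_log (by exact_mod_cast h4) h2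
          rwa [Real.log_exp] at this
      have h5 : 1 ≤ η ^ (-q) := by
        apply Real.one_le_rpow_of_pos_of_le_one_of_nonpos hη0 hη.2.le
        linarith
      have h6 : 1 + Real.log (packing v η) ≤ (1 + A) * η ^ (-q) := by
        have : (1 + A) * η ^ (-q) = η ^ (-q) + A * η ^ (-q) := by ring
        linarith
      have h7 : 0 ≤ 1 + Real.log (packing v η) := by
        have := Real.log_natCast_nonneg (packing v η)
        linarith
      unfold hh
      calc (1 + Real.log (packing v η)) ^ (1 / 4 : ℝ)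
          ≤ ((1 + A) * η ^ (-q)) ^ (1 / 4 : ℝ) := Real.rpow_le_rpow h7 h6 (by norm_num)
        _ = (1 + A) ^ (1 / 4 : ℝ) * (η ^ (-q)) ^ (1 / 4 : ℝ) :=
            Real.mul_rpow (by linarith) (by positivity)
        _ = (1 + A) ^ (1 / 4 : ℝ) * η ^ (-q / 4) := by
            rw [← Real.rpow_mul hη0.le]
            congr 2
            ring
  refine h1.trans ?_
  rw [intervalIntegral.integral_const_mul, integral_rpow (Or.inl (by linarith))]
  rw [Real.one_rpow, Real.zero_rpow (by linarith), sub_zero, mul_comm]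
  apply mul_le_mul_of_nonneg_right _ (by positivity)
  apply le_of_eq
  field_simp
  ring

end Pool.Agent.Q299.KE
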