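import Pool.Agent.H167R2.KNLin
import Pool.Agent.H294R2.BF.L1
import Pool.Agent.Q299.KE.Int

/-!
# The two signing theorems of the starting library in the form used here
-/

set_option autoImplicit false

namespace Pool.Agent.Q299.KE

open Finset Real

/-- the constant -/
def K0 : ℝ := 140000000

theorem two_rpow_quarter : (2 : ℝ) ^ (1 / 4 : ℝ) ≤ 2 := by
  calc (2 : ℝ) ^ (1 / 4 : ℝ) ≤ 2 ^ (1 : ℝ) :=
        Real.rpow_le_rpow_of_exponent_le (by norm_num) (by norm_num)
    _ = 2 := by norm_num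

/-- vectors of norm at most `η` -/
theorem komEng : KomEng K0 := by
  intro m d w η hη hw N hN
  classical
  rcases Nat.eq_zero_or_pos m with hm | hm
  · subst hm
    refine ⟨fun p => p.elim0, fun p => p.elim0, fun i => ?_⟩
    simp only [univ_eq_empty, sum_empty, PiLp.zero_apply, abs_zero]
    have h1 : 0 ≤ Real.log N := Real.log_natCast_nonneg N
    unfold K0
    positivity
  have hN1 : (1 : ℝ) ≤ N := by exact_mod_cast (by omega : 1 ≤ N)
  have hcol : ∀ p, ∑ i, (w p i / η) ^ 2 ≤ 1 := by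
    intro p
    have h1 : ‖w p‖ ^ 2 ≤ η ^ 2 := pow_le_pow_left₀ (norm_nonneg _) (hw p) 2
    rw [EuclideanSpace.norm_sq_eq] at h1
    have h2 : ∑ i, (w p i / η) ^ 2 = (∑ i, ‖w p i‖ ^ 2) / η ^ 2 := by
      rw [Finset.sum_div]
      refine Finset.sum_congr rfl fun i _ => ?_
      rw [Real.norm_eq_abs, sq_abs, div_pow]
    rw [h2, div_le_one (by positivity)]
    exact h1
  obtain ⟨y, hy1, hy2⟩ := H167KN.komlos_form2 (fun (i : Fin d) (p : Fin m) => w p i / η) 1
    one_pos le_rfl (fun i p => by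
      have h1 := hcol p
      have h2 : (w p i / η) ^ 2 ≤ 1 := by
        refine le_trans ?_ h1
        exact Finset.single_le_sum (f := fun i => (w p i / η) ^ 2) (fun i _ => sq_nonneg _)
          (mem_univ i)
      exact (sq_le_one_iff_abs_le_one _).1 h2) hcol m hm (fun v => by
        refine (Finset.card_le_univ _).trans ?_
        rw [Fintype.card_fin]) 0 (fun _ => 0) (fun _ => by simp)
  refine ⟨y, fun p => eq_or_eq_neg_of_abs_eq (hy1 p), fun i => ?_⟩
  have h1 := hy2 i
  have hs : ∑ p, w p i / η * (y p - 0) = ((∑ p, y p • w p) i) / η := by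
    rw [WithLp.ofLp_sum, Finset.sum_apply, Finset.sum_div]
    refine Finset.sum_congr rfl fun p _ => ?_
    rw [PiLp.smul_apply, smul_eq_mul]
    ring
  rw [hs, abs_div, abs_of_pos hη, div_le_iff₀ hη] at h1
  refine h1.trans ?_
  have hlN : 0 ≤ Real.log N := Real.log_nonneg hN1
  have h2 : 1 + log (1 / 1) + H167BK.slog^[0 + 1]
      ((min (Fintype.card (Fin d)) (Fintype.card (Fin m)) : ℕ) : ℝ) ≤ 2 * (1 + Real.log N) := by
    have h3 : ((min (Fintype.card (Fin d)) (Fintype.card (Fin m)) : ℕ) : ℝ) ≤ N := by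
      have : min (Fintype.card (Fin d)) (Fintype.card (Fin m)) ≤ N := by
        rw [Fintype.card_fin, Fintype.card_fin]
        omega
      exact_mod_cast this
    have h4 : (0 : ℝ) ≤ ((min (Fintype.card (Fin d)) (Fintype.card (Fin m)) : ℕ) : ℝ) :=
      Nat.cast_nonneg _
    have h5 : log (1 + ((min (Fintype.card (Fin d)) (Fintype.card (Fin m)) : ℕ) : ℝ)) ≤
        log (2 * N) := Real.log_le_log (by linarith) (by linarith)
    rw [Real.log_mul (by norm_num) (by linarith)] at h5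
    have h6 : log 2 ≤ 1 := by
      have := Real.log_two_lt_d9
      linarith
    simp only [zero_add, Function.iterate_one, H167BK.slog, div_one, Real.log_one, add_zero]
    linarith
  have h0 : 0 ≤ 1 + log (1 / 1) + H167BK.slog^[0 + 1]
      ((min (Fintype.card (Fin d)) (Fintype.card (Fin m)) : ℕ) : ℝ) := by
    have := H167BK.slog_iter_nonneg (0 + 1)
      (Nat.cast_nonneg (α := ℝ) (min (Fintype.card (Fin d)) (Fintype.card (Fin m))))
    simp only [div_one, Real.log_one, add_zero]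
    linarith
  have h7 := Real.rpow_le_rpow h0 h2 (by norm_num : (0 : ℝ) ≤ 1 / 4)
  rw [Real.mul_rpow (by norm_num) (by linarith)] at h7
  have h8 : (2 : ℝ) ^ (1 / 4 : ℝ) * (1 + Real.log N) ^ (1 / 4 : ℝ) ≤
      2 * (1 + Real.log N) ^ (1 / 4 : ℝ) :=
    mul_le_mul_of_nonneg_right two_rpow_quarter (by positivity)
  rw [Nat.cast_zero, zero_mul, zero_add]
  have h9 := (min_le_left ((1 + log (1 / 1) + H167BK.slog^[0 + 1]
      ((min (Fintype.card (Fin d)) (Fintype.card (Fin m)) : ℕ) : ℝ)) ^ (1 / 4 : ℝ))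
    (1 + 1 * Real.sqrt (1 + log (1 / 1) + H167BK.slog^[0 + 1]
      ((min (Fintype.card (Fin d)) (Fintype.card (Fin m)) : ℕ) : ℝ)) *
      (1 + log (1 / 1)) ^ (3 / 2 : ℝ))).trans (h7.trans h8)
  unfold K0
  have h10 : 70000000 * (min ((1 + log (1 / 1) + H167BK.slog^[0 + 1]
      ((min (Fintype.card (Fin d)) (Fintype.card (Fin m)) : ℕ) : ℝ)) ^ (1 / 4 : ℝ))
    (1 + 1 * Real.sqrt (1 + log (1 / 1) + H167BK.slog^[0 + 1]
      ((min (Fintype.card (Fin d)) (Fintype.card (Fin m)) : ℕ) : ℝ)) *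
      (1 + log (1 / 1)) ^ (3 / 2 : ℝ))) * η ≤
      70000000 * (2 * (1 + Real.log N) ^ (1 / 4 : ℝ)) * η := by
    apply mul_le_mul_of_nonneg_right _ hη.le
    apply mul_le_mul_of_nonneg_left h9 (by norm_num)
  refine h10.trans (le_of_eq ?_)
  ring

/-- vectors with small sum of absolute values -/
theorem l1Eng : L1Eng := by
  intro m d w hw
  obtain ⟨x, hx1, hx2⟩ := H294BF.l1_signing (fun (i : Fin d) (p : Fin m) => w p i) 1 zero_le_one
    hw
  refine ⟨x, hx1, fun i => ?_⟩
  have : (∑ p, x p • w p) i = ∑ j, w j i * x j := by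
    rw [WithLp.ofLp_sum, Finset.sum_apply]
    refine Finset.sum_congr rfl fun p _ => ?_
    rw [PiLp.smul_apply, smul_eq_mul, mul_comm]
  rw [this]
  exact hx2 i

end Pool.Agent.Q299.KE
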