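import Pool.Agent.Q299.KE.Int

/-!
# Packing numbers of families with a Hoelder parametrisation
-/

set_option autoImplicit false

namespace Pool.Agent.Q299.KE

open Finset

variable {n d D : ℕ} {v : Fin n → EuclideanSpace ℝ (Fin d)}

theorem packing_hoelder (p : Fin n → Fin D → ℝ) (hp : ∀ j c, 0 ≤ p j c ∧ p j c ≤ 1) {L a : ℝ}
    (hL : 0 ≤ L) (ha : 0 < a) (hv : ∀ i j, ‖v i - v j‖ ≤ L * ‖p i - p j‖ ^ a) {η : ℝ}
    (hη : 0 < η) :
    (packing v η : ℝ) ≤ (1 + (L / η) ^ (1 / a)) ^ D := by
  classical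
  set R : ℝ := (L / η) ^ (1 / a) with hR
  have hR0 : 0 ≤ R := by positivity
  have hnat : packing v η ≤ (⌊R⌋₊ + 1) ^ D := by
    unfold packing
    apply Finset.sup_le
    intro u hu
    rw [mem_filter] at hu
    have hcard : (Fintype.piFinset fun _ : Fin D => range (⌊R⌋₊ + 1)).card =
        (⌊R⌋₊ + 1) ^ D := by
      rw [Fintype.card_piFinset]
      simp
    rw [← hcard]
    apply card_le_card_of_injOn (fun j => fun c => ⌊p j c * R⌋₊)
    · intro j _
      rw [mem_coe, Fintype.mem_piFinset]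
      intro c
      rw [mem_range]
      apply Nat.lt_succ_of_le
      apply Nat.floor_le_floor
      have h1 := hp j c
      nlinarith
    · intro i hi j hj hij
      by_contra hne
      have h1 := (hu.2 i hi j hj hne).1
      have h2 := hv i j
      rcases eq_or_lt_of_le hL with h0 | h0
      · rw [← h0, zero_mul] at h2
        linarith
      · have hq : 0 < R := by positivity
        have h3 : ‖p i - p j‖ ≤ 1 / R := by
          rw [pi_norm_le_iff_of_nonneg (by positivity)]
          intro c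
          rw [Pi.sub_apply, Real.norm_eq_abs]
          have h4 : ⌊p i c * R⌋₊ = ⌊p j c * R⌋₊ := congrFun hij c
          have h5 := Nat.floor_le (mul_nonneg (hp i c).1 hq.le)
          have h6 := Nat.lt_floor_add_one (p i c * R)
          have h7 := Nat.floor_le (mul_nonneg (hp j c).1 hq.le)
          have h8 := Nat.lt_floor_add_one (p j c * R)
          rw [h4] at h5 h6
          have h9 : |(p i c - p j c) * R| ≤ 1 := by
            rw [abs_le]
            constructor <;> linarith
          rw [abs_mul, abs_of_pos hq] at h9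
          rw [le_div_iff₀ hq]
          exact h9
        have h10 : L * ‖p i - p j‖ ^ a ≤ η := by
          have h11 : ‖p i - p j‖ ^ a ≤ (1 / R) ^ a :=
            Real.rpow_le_rpow (norm_nonneg _) h3 ha.le
          have h12 : (1 / R) ^ a = η / L := by
            rw [Real.div_rpow zero_le_one hq.le, Real.one_rpow, hR,
              ← Real.rpow_mul (by positivity)]
            rw [one_div_mul_cancel ha.ne', Real.rpow_one, one_div_div]
          rw [h12, le_div_iff₀ h0] at h11
          linarith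
        linarith
  have h1 : ((⌊R⌋₊ : ℝ) + 1) ^ D ≤ (1 + R) ^ D := by
    apply pow_le_pow_left₀ (by positivity)
    have := Nat.floor_le hR0
    linarith
  have h2 : (packing v η : ℝ) ≤ ((⌊R⌋₊ : ℝ) + 1) ^ D := by exact_mod_cast hnat
  exact h2.trans h1

theorem packing_hoelder_exp (p : Fin n → Fin D → ℝ) (hp : ∀ j c, 0 ≤ p j c ∧ p j c ≤ 1)
    {L a : ℝ} (hL : 0 ≤ L) (ha : 0 < a) (ha1 : a ≤ 1)
    (hv : ∀ i j, ‖v i - v j‖ ≤ L * ‖p i - p j‖ ^ a) {η : ℝ} (hη : 0 < η) (hη1 : η ≤ 1) :
    (packing v η : ℝ) ≤ Real.exp (D * (1 + Real.log (1 + L)) / a * η ^ (-1 : ℝ)) := by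
  refine (packing_hoelder p hp hL ha hv hη).trans ?_
  have h0 : 0 < 1 + (L / η) ^ (1 / a) := by positivity
  have h1 : 0 < 1 + L / η := by positivity
  rw [← Real.rpow_natCast, Real.rpow_def_of_pos h0]
  apply Real.exp_le_exp.2
  have hb : 1 + (L / η) ^ (1 / a) ≤ (1 + L / η) ^ (1 / a) := by
    have := Real.add_rpow_le_rpow_add (a := 1) (b := L / η) (p := 1 / a) zero_le_one
      (by positivity) (by rw [le_div_iff₀ ha]; linarith)
    rwa [Real.one_rpow] at this
  have hc : Real.log (1 + (L / η) ^ (1 / a)) ≤ 1 / a * Real.log (1 + L / η) := by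
    rw [← Real.log_rpow h1]
    exact Real.log_le_log h0 hb
  have h2 : Real.log (1 + L / η) ≤ Real.log ((1 + L) / η) := by
    apply Real.log_le_log h1
    rw [add_div]
    have : 1 ≤ 1 / η := by
      rw [le_div_iff₀ hη]
      linarith
    linarith
  rw [Real.log_div (by positivity) hη.ne'] at h2
  have h3 : -Real.log η ≤ η⁻¹ := by
    have := Real.log_le_sub_one_of_pos (inv_pos.2 hη)
    rw [Real.log_inv] at this
    linarith
  have h4 : 1 ≤ η⁻¹ := by
    rw [one_le_inv₀ hη]
    exact hη1
  have h5 : 0 ≤ Real.log (1 + L) := Real.log_nonneg (by linarith)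
  have h6 : Real.log (1 + L / η) ≤ (1 + Real.log (1 + L)) * η⁻¹ := by
    have h7 : Real.log (1 + L) * 1 ≤ Real.log (1 + L) * η⁻¹ := mul_le_mul_of_nonneg_left h4 h5
    have : (1 + Real.log (1 + L)) * η⁻¹ = η⁻¹ + Real.log (1 + L) * η⁻¹ := by ring
    linarith
  rw [Real.rpow_neg_one]
  calc Real.log (1 + (L / η) ^ (1 / a)) * (D : ℝ) ≤ 1 / a * Real.log (1 + L / η) * D :=
        mul_le_mul_of_nonneg_right hc (Nat.cast_nonneg _)
    _ ≤ 1 / a * ((1 + Real.log (1 + L)) * η⁻¹) * D := by
        apply mul_le_mul_of_nonneg_right _ (Nat.cast_nonneg _)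
        apply mul_le_mul_of_nonneg_left h6 (by positivity)
    _ = (D : ℝ) * (1 + Real.log (1 + L)) / a * η⁻¹ := by ring

end Pool.Agent.Q299.KE
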